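import Pool.Agent.Y916.Sl.Fin
import Pool.Agent.Y916.Sl.Many

/-!
# Integrals of the first, second and third kind on several hyperelliptic curves at almost all tuples of algebraic
integers of bounded degree

For polynomials `F_a`, `q_a` the primitives `Φ_(a,j)` of `x^j dx / (q_a √F_a)`, `j < deg F_a - 1 + deg q_a`, are integrals
of the three kinds on the curve `C_a : y² = F_a(x)`, with logarithmic poles over the zeros of `q_a`: the generalised
logarithms of the point `(x, √F_a(x)) - ∞` of the generalised Jacobian of `C_a` (a non-split extension of the Jacobian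
by a torus in general) and of its universal vector extension. The theorem: for almost all `k`-tuples of algebraic
integers `α_i` of degree at most `m` (each in its own number field) the generalised logarithms of the points over all
`α_i + θ_j`, for all the curves, along any paths, and the logarithms of the `α_i + θ_j` satisfy no relation of degree at
most `δ` over number fields of degree at most `d` and an arbitrary space `V` of constants (for instance monomials in the
periods of the generalised Jacobians and in further arbitrary numbers).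

The proof: around each algebraic integer `ξ` with `|ξ| ≥ (H + 2)^E` and conjugates at most `|ξ|^4` the window
`ξ, ξ + 1, …, ξ + H` contains a bounded number of exceptions (values of G-functions at algebraic points, functional
independence over the field of all the square roots, Hilbert functions); double counting of the pairs `(ξ, ξ + g)`. Parts
by helper333 (values), helper968 and helper737 (the integrals in the complex plane), on libraries by helper67,
helper113, helper201, helper255, helper261, helper419, helper574, helper678, helper708, helper787, helper921, helper960.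
-/

set_option autoImplicit false

namespace Pool.Agent.Results.MP_ae0f86_nt.BoundedDegreeOneMotives

/-- The algebraic integers of degree at most `m` all of whose conjugates have absolute value at most `T`. -/
def integers (m T : ℕ) : Set ℂ :=
  {α | IsIntegral ℤ α ∧ (minpoly ℚ α).natDegree ≤ m ∧ ∀ z : ℂ, Polynomial.aeval z (minpoly ℚ α) = 0 → ‖z‖ ≤ T}

/-- The indices `(a, j)`, `j < deg F_a - 1 + deg q_a`, of the differentials. -/
abbrev Idx {s : ℕ} (F q : Fin s → Polynomial ℤ) : Type := Σ a, Fin ((F a).natDegree - 1 + (q a).natDegree)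

/-- The plane without the disc of radius `R` and the ray `- u [0, ∞)`. -/
def Domain (u : ℂ) (R : ℝ) : Set ℂ := {x | R < ‖x‖ ∧ x / u ∈ Complex.slitPlane}

/-- On the domain `S_a` is a continuous square root of `F_a` and `Φ_(a,j)` a primitive of `x^j / (q_a S_a)`. -/
def Primitives {s : ℕ} (F q : Fin s → Polynomial ℤ) (u : ℂ) (R : ℝ) (S : Fin s → ℂ → ℂ) (Φ : Idx F q → ℂ → ℂ) : Prop :=
  ∀ x ∈ Domain u R, (∀ a, ContinuousAt (S a) x ∧ S a x ^ 2 = Polynomial.aeval x (F a)) ∧
    ∀ p : Idx F q, HasDerivAt (Φ p) (x ^ (p.2 : ℕ) / (Polynomial.aeval x (q p.1) * S p.1 x)) x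

/-- The numbers `Φ_(a,j)(x)` and `log x`. -/
noncomputable def number {s : ℕ} {F q : Fin s → Polynomial ℤ} (Φ : Idx F q → ℂ → ℂ) (x : ℂ) : Idx F q ⊕ Unit → ℂ
  | Sum.inl p => Φ p x
  | Sum.inr _ => Complex.log x

/-- There are a number field `L` of degree at most `d`, numbers `y`, equal modulo the `L`-span of `V` to nonzero
`L`-multiples of the numbers `x`, and a nonzero polynomial of total degree at most `δ` with coefficients in the `L`-span
of `V` which vanishes at `y`. -/
def Related {ι : Type} (δ d : ℕ) (V : Submodule ℚ ℂ) (x : ι → ℂ) : Prop :=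
  ∃ L : IntermediateField ℚ ℂ, FiniteDimensional ℚ L ∧ Module.finrank ℚ L ≤ d ∧ ∃ y : ι → ℂ,
    (∀ p, ∃ a : L, a ≠ 0 ∧ y p - a * x p ∈ Submodule.span L (V : Set ℂ)) ∧
    ∃ P : MvPolynomial ι ℂ, P ≠ 0 ∧ P.totalDegree ≤ δ ∧ (∀ s, P.coeff s ∈ Submodule.span L (V : Set ℂ)) ∧
      MvPolynomial.aeval y P = 0

/-- Let `F_a`, `q_a` be integral polynomials with positive leading coefficients such that `F_a q_a` is squarefree,
`deg F_a` is odd, `deg F_a + 2 deg q_a ≥ 3` and no `F_a` is proportional to an integral translate of another `F_b`, and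
let `Φ` be primitives of the differentials `x^j dx / (q_a √F_a)` on a domain as above. Let `m ≥ 1` and let
`θ_1, …, θ_r` be distinct natural numbers. For all `k`, `δ`, `d`, `D` there are `c₀ > 0` and `C` such that for every
`ℚ`-subspace `V` of `ℂ` of dimension at most `D` and every `T ≥ 1`, among all `k`-tuples of algebraic integers of degree
at most `m` with conjugates at most `T`, the proportion of those such that all the points `α_i + θ_j` are in the domain
and the numbers at these points are related is at most `C T^(-c₀)`. -/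
theorem result {s : ℕ} (F q : Fin s → Polynomial ℤ)
    (hsf : ∀ a, Squarefree ((F a * q a).map (Int.castRingHom ℚ))) (hodd : ∀ a, Odd (F a).natDegree)
    (hdeg : ∀ a, 3 ≤ (F a).natDegree + 2 * (q a).natDegree)
    (hpos : ∀ a, 0 < (F a).leadingCoeff ∧ 0 < (q a).leadingCoeff)
    (hdist : ∀ a b, a ≠ b → ∀ h c₁ c₂ : ℤ, c₁ ≠ 0 → c₂ ≠ 0 →
      Polynomial.C c₁ * F a ≠ Polynomial.C c₂ * (F b).comp (Polynomial.X + Polynomial.C h))
    (u : ℂ) (hu : u ≠ 0) (R : ℝ) (S : Fin s → ℂ → ℂ) (Φ : Idx F q → ℂ → ℂ) (hΦ : Primitives F q u R S Φ)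
    (m : ℕ) (hm : 1 ≤ m) {r : ℕ} (θ : Fin r → ℕ) (hθ : Function.Injective θ) (k δ d D : ℕ) :
    ∃ c₀ : ℝ, 0 < c₀ ∧ ∃ C : ℝ, ∀ V : Submodule ℚ ℂ, Module.Finite ℚ V → Module.finrank ℚ V ≤ D → ∀ T : ℕ, 1 ≤ T →
      (integers m T).Finite ∧
      ({α : Fin k → ℂ | (∀ i, α i ∈ integers m T) ∧ (∀ i j, α i + θ j ∈ Domain u R) ∧ Related δ d V
        fun p : (Fin k × Fin r) × (Idx F q ⊕ Unit) => number Φ (α p.1.1 + θ p.1.2) p.2}.ncard : ℝ) ≤
        C * (T : ℝ) ^ (-c₀) * ((integers m T).ncard : ℝ) ^ k := by
  have hG : ∀ a, Pool.Agent.Y916.Sa.GoodP (F a) (q a) := by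
    intro a
    have h := hsf a
    rw [Polynomial.map_mul, squarefree_mul_iff] at h
    exact ⟨h.2.1, hodd a, (hpos a).1, h.2.2, (hpos a).2, h.1.isCoprime, hdeg a⟩
  have hx : ∀ (x : ℂ) i, number Φ x i = Pool.Agent.Y916.Sl.xP F q Φ x i := by
    rintro x (p | w) <;> rfl
  simp only [hx]
  obtain ⟨c₁, hc₁, h₁⟩ := Pool.Agent.Y916.Sl.many m hm
  obtain ⟨c, hc, C, hC, h⟩ := Pool.Agent.Y916.Sl.tuplesD Pool.Agent.Y916.Sl.tV Pool.Agent.Y916.Sl.tQ
    Pool.Agent.Y916.Sl.tP F q hG (fun a b hab h c₁ c₂ => hdist a b hab h c₁ c₂) hu (R := R) (S := S) (Φ := Φ)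
    (fun x hx1 hx2 => hΦ x ⟨hx1, hx2⟩) m θ hθ k δ d D
  refine ⟨c, hc, C / c₁ ^ k, fun V hV hVD T hT => ⟨Pool.Agent.Y916.Sl.sint_fin m T, ?_⟩⟩
  obtain ⟨hf, hle⟩ := h V hV hVD T hT
  refine le_trans ?_ (hle.trans (Pool.Agent.Y916.Sl.prop_bound hc₁ hC hT (h₁ T hT)))
  refine Nat.cast_le.2 (Set.ncard_le_ncard ?_ hf)
  rintro α ⟨hα1, hα2, hα3⟩
  exact ⟨fun i => Pool.Agent.Y916.Sl.SInt.aint (hα1 i), hα2, hα3⟩

end Pool.Agent.Results.MP_ae0f86_nt.BoundedDegreeOneMotives
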