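import Pool.Agent.Y900.HY.Main
import Pool.Agent.Y900.HY.Log
import Pool.Agent.Y124.NFPoly

/-!
# Iterated integrals of algebraic differentials between algebraic points, relative to arbitrary constants

Let `u_i(z) dz` be differentials, algebraic over `ℂ(z)`, holomorphic on a connected open set `U`, no nontrivial combination
of which is the differential of an algebraic function, and let `I_w`, for all words `w` in the letters `i`, be iterated
primitives on `U`: `I_∅ = 1`, `dI_(iw) = u_i I_w dz`, with any constants of integration. Examples: for distinct complex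
numbers `a_i` all hyperlogarithms, that is iterated integrals of the forms `dz / (z - a_i)`, among them all multiple
polylogarithms in one variable, for any branches and any base points, tangential ones included. If the `a_i` are
algebraic, then the values at algebraic points `z` are, up to the constants of integration, the periods of the path
torsors of the unipotent fundamental group from the base point to `z`, a Nori motive `M(z)`. The shuffle relations
express the polynomials in the values at one point as linear combinations of the values, and the period conjecture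
predicts that these are the only relations relative to the periods of a fixed motive if `z` is general.

We prove this in bounded degree and for heights up to `T ^ A` at almost all points and tuples of points: for all but
`C T ^ ε N ^ (n - 1)` of the `N ^ n` tuples of `N` points of a number field, uniformly in the number fields of degree at
most `m` and in an arbitrary finite system of complex constants `ξ_1, …, ξ_g` (for instance the monomials of bounded degree
in the periods of a fixed motive, like `2πi` and multiple zeta values), there is no relation, even an approximate one,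
between the products of the values of the `I_w` at the points.

Proof: the iterated primitives are linearly independent over the algebraic functions; normalised at a base point they
form a homomorphic image of the shuffle algebra, which is a polynomial algebra (Hall areas, `H569R3.Hall.main`); so
they are polynomials in finitely many algebraically independent functions, to which the general theorem of helper124
(`Pool.Agent.Y124.nfU`, a Bombieri–Pila method in families) applies.
-/

set_option autoImplicit false

open NumberField
open scoped Topology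

namespace Pool.Agent.Results.MP_ae0f86_nt.IteratedIntegrals

/-- `g` is an algebraic function near `p`: `P(z, g(z)) = 0` near `p` for some polynomial `P ≠ 0` in two variables. -/
def AlgebraicAt (p : ℂ) (g : ℂ → ℂ) : Prop :=
  ∃ P : MvPolynomial (Fin 2) ℂ, P ≠ 0 ∧ ∀ᶠ z in 𝓝 p, MvPolynomial.eval ![z, g z] P = 0

/-- The `I_w` are iterated primitives on the connected open set `U` of the differentials `u_i(z) dz`, which are algebraic,
and no nontrivial combination of which is the differential of an algebraic function (near `p ∈ U`). -/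
structure Family {κ : Type} [Fintype κ] (U : Set ℂ) (p : ℂ) (u : κ → ℂ → ℂ) (I : List κ → ℂ → ℂ) : Prop where
  isOpen : IsOpen U
  isPreconnected : IsPreconnected U
  mem : p ∈ U
  analytic : ∀ i, AnalyticAt ℂ (u i) p
  algebraic : ∀ i, AlgebraicAt p (u i)
  not_exact : ∀ (c : κ → ℂ) (g : ℂ → ℂ), AlgebraicAt p g →
    (∀ᶠ z in 𝓝 p, HasDerivAt g (∑ i, c i * u i z) z) → c = 0
  nil : ∀ z ∈ U, I [] z = 1
  cons : ∀ i w, ∀ z ∈ U, HasDerivAt (I (i :: w)) (u i z * I w z) z

/-- the words of length at most `W`: a length and the letters -/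
abbrev Words (κ : Type) (W : ℕ) : Type := (r : Fin (W + 1)) × (Fin r → κ)

/-- The elements of the number field `F` with image in `L` which are quotients of two integers of `F` all of whose
conjugates have absolute value at most `T`. -/
def Points (F : Type) [Field F] [NumberField F] (ι : F →+* ℂ) (L : Set ℂ) (T : ℝ) : Set F :=
  {x | ι x ∈ L ∧ ∃ a b : 𝓞 F, b ≠ 0 ∧ (∀ φ : F →+* ℂ, ‖φ a‖ ≤ T ∧ ‖φ b‖ ≤ T) ∧ x = a / b}

/-- The `n`-tuples `x` of points of `F` for which there is a linear combination of the products `∏_j I_(w_j)(x_j)`, `w_j`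
of length at most `W`, with coefficients of the form `∑ ξ_s ι(c_s)`, where the `c_s` are integers of `F` all of whose
conjugates have absolute value at most `T ^ A`, whose absolute value is at most `T ^ (-B)` times the absolute value of
one of its nonzero coefficients. -/
def Exceptional {κ : Type} (I : List κ → ℂ → ℂ) (W n : ℕ) {g : ℕ} (F : Type) [Field F] [NumberField F] (ι : F →+* ℂ)
    (ξ : Fin g → ℂ) (L : Set ℂ) (A B T : ℝ) [Fintype κ] : Set (Fin n → F) :=
  {x | (∀ j, x j ∈ Points F ι L T) ∧ ∃ c : (Fin n → Words κ W) → Fin g → 𝓞 F,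
    (∀ w s (φ : F →+* ℂ), ‖φ (c w s)‖ ≤ T ^ A) ∧ ∃ w₀, ∑ s, ξ s * ι (c w₀ s) ≠ 0 ∧
      ‖∑ w, (∑ s, ξ s * ι (c w s)) * ∏ j, I (List.ofFn (w j).2) (ι (x j))‖ ≤ T ^ (-B) * ‖∑ s, ξ s * ι (c w₀ s)‖}

/-- words as lists -/
def wE (κ : Type) [Fintype κ] [DecidableEq κ] (W : ℕ) : Words κ W ≃ Pool.Agent.Y900.HY.Wd κ W where
  toFun x := ⟨List.ofFn x.2, by
    rw [Pool.Agent.Y119.UP.mem_wd, List.length_ofFn]
    exact Nat.lt_succ_iff.1 x.1.2⟩
  invFun w := ⟨⟨w.1.length, Nat.lt_succ_iff.2 ((Pool.Agent.Y119.UP.mem_wd _ _).1 w.2)⟩, w.1.get⟩
  left_inv x := by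
    obtain ⟨⟨l, hl⟩, f⟩ := x
    have h1 := (List.equivSigmaTuple (α := κ)).right_inv ⟨l, f⟩
    simp only [List.equivSigmaTuple] at h1
    rw [Sigma.mk.injEq] at h1
    refine Sigma.ext (Fin.ext h1.1) ?_
    exact h1.2
  right_inv w := Subtype.ext (List.ofFn_get w.1)

/-- **Main result.** 1. Let the differentials `u_i dz` and the functions `I_w` be a family on `U` and let `L` be a compact subset of `U`. For all `m`, `n`,
`W`, `g`, `A` and `ε > 0` there are `B`, `C`, `T₀` such that for every number field `F` of degree at most `m`, every embedding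
of `F` in `ℂ`, all complex numbers `ξ_1, …, ξ_g` and all `T ≥ T₀` the number of exceptional `n`-tuples is at most
`C T^ε N^(n - 1)`, where `N` is the number of points. 2. For distinct complex numbers `a_i` outside `U` the forms
`dz / (z - a_i)` and any iterated primitives of them on `U` form a family. -/
theorem result :
    (∀ (κ : Type) [Fintype κ] (U : Set ℂ) (p : ℂ) (u : κ → ℂ → ℂ) (I : List κ → ℂ → ℂ), Family U p u I →
      ∀ L : Set ℂ, IsCompact L → L ⊆ U → ∀ (m n W g : ℕ) (A ε : ℝ), 0 < ε →
      ∃ B C T₀ : ℝ, ∀ (F : Type) [Field F] [NumberField F], Module.finrank ℚ F ≤ m → ∀ (ι : F →+* ℂ) (ξ : Fin g → ℂ)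
        (T : ℝ), T₀ ≤ T → (Exceptional I W n F ι ξ L A B T).Finite ∧
          ((Exceptional I W n F ι ξ L A B T).ncard : ℝ) ≤ C * T ^ ε * ((Points F ι L T).ncard : ℝ) ^ (n - 1)) ∧
    (∀ (κ : Type) [Fintype κ] (a : κ → ℂ), Function.Injective a → ∀ (U : Set ℂ), IsOpen U → IsPreconnected U →
      (∀ i, a i ∉ U) → ∀ p ∈ U, ∀ I : List κ → ℂ → ℂ, (∀ z ∈ U, I [] z = 1) →
      (∀ i w, ∀ z ∈ U, HasDerivAt (I (i :: w)) (1 / (z - a i) * I w z) z) →
      Family U p (fun i z => 1 / (z - a i)) I) := by
  classical
  refine ⟨?_, ?_⟩
  · intro κ _ U p u I hI L hL hLU m n W g A ε hε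
    obtain ⟨B, C, T₀, hC, hT₀, H⟩ := Pool.Agent.Y900.HY.main_iter (h := Fin g) hI.isOpen hI.isPreconnected
      ⟨hI.nil, hI.cons⟩ hI.mem ⟨hI.analytic, hI.algebraic, hI.not_exact⟩ hL hLU m n W A ε hε
    refine ⟨B, C, T₀, fun F _ _ hF ι ξ T hT => ?_⟩
    have hT0 : 0 ≤ T := by linarith
    have hP : Points F ι L T = {x : F | Pool.Agent.Y120.HtLe F T x ∧ ι x ∈ L} := by
      ext x
      constructor
      · rintro ⟨h1, a, b, hb, hab, hx⟩
        exact ⟨⟨a, b, hb, Pool.Agent.Y120.house_le F hT0 fun φ => (hab φ).1,
          Pool.Agent.Y120.house_le F hT0 fun φ => (hab φ).2, hx⟩, h1⟩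
      · rintro ⟨⟨a, b, hb, ha, hb', hx⟩, h1⟩
        exact ⟨h1, a, b, hb, fun φ => ⟨(Pool.Agent.Y120.house_ge F _ φ).trans ha,
          (Pool.Agent.Y120.house_ge F _ φ).trans hb'⟩, hx⟩
    have hE := H F hF ι ξ T hT (Exceptional I W n F ι ξ L A B T) (by
      rintro x ⟨hx, c, hc, w₀, hw₀, hs⟩
      refine ⟨fun j => ?_, fun w s => c (fun j => (wE κ W).symm (w j)) s, fun w s φ => hc _ s φ,
        fun j => wE κ W (w₀ j), ?_, ?_⟩
      · have h1 := hx j
        rw [hP] at h1
        exact h1
      · simp only [Equiv.symm_apply_apply]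
        exact hw₀
      · simp only [Equiv.symm_apply_apply]
        refine le_trans (le_of_eq ?_) hs
        congr 1
        rw [← (Equiv.arrowCongr (Equiv.refl (Fin n)) (wE κ W)).sum_comp]
        refine Finset.sum_congr rfl fun w _ => ?_
        simp only [Equiv.arrowCongr_apply, Equiv.coe_refl, Equiv.refl_symm, Function.comp_apply, id_eq,
          Equiv.symm_apply_apply]
        rfl)
    rw [hP]
    exact hE
  · intro κ _ a ha U hU hUc haU p hp I hI0 hI
    have h := Pool.Agent.Y900.HY.good_log a ha p (fun i h => haU i (h ▸ hp))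
    exact ⟨hU, hUc, hp, h.an, h.alg, h.prim, hI0, hI⟩

end Pool.Agent.Results.MP_ae0f86_nt.IteratedIntegrals
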