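import Pool.Agent.Y123.GN.D7
import Pool.Agent.Y123.GN.B4
import Pool.Agent.Y123.ST.Out

/-!
# The torsors of periods at almost all fibres of mixed families

Let `h_i`, `1 ≤ i ≤ k`, be families of G-functions over `ℚ` (with the conditions of Siegel and Galochkin, regular singular
with rational exponents at `0`) and let `P_i(x)` be square matrices whose entries are polynomials with arbitrary complex
coefficients in `log x` and in the functions `h_{i,l}(x)`: the period matrices (rows: Betti, columns: de Rham) of families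
`M_i` of mixed motives over an open part of the line, near any rational point, which may be a point of degeneration. Let
`Gal(P_i)` be the group of the matrices `g` such that `P_i` and `g P_i` satisfy the same polynomial relations over `ℂ(x)`: if
`P_i` is a fundamental matrix of a linear system this is its differential Galois group, and if the system is Fuchsian it is
the Zariski closure of the monodromy group.

Let `K` be a number field, let `M_0` be any object over `K` with period matrix `C₀`, and let `M = M_0 ⊕ ⨁_i M_{i, t_i}` be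
the sum with the fibres at `x_i = 1 / t_i`. The period conjecture says that the period point `c` of `M` is generic in the
torsor of motivic isomorphisms of `H_dR(M)` and `H_B(M)`. It implies that every `K`-subtorsor `T` of `Iso(H_dR(M), H_B(M))`
(given by polynomials over `K` of any degree) with `c ∈ T` contains the torsor of motivic isomorphisms, so that it is stable
under the motivic Galois group.

**Theorem.** For almost all tuples of integers `t` (all but `C N^(k-1) ∑_i (1 + N / (x_i + N)^c)` of the tuples in the box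
`∏_i (x_i, x_i + N]`, where `c > 0` and `C` depend only on the `h_i`, on `k`, the ranks, `[K : ℚ]` and the degrees of the
`P_i` as polynomials) the following holds: every `K`-subtorsor `T` which contains the period point `c` is stable under
`1 × ∏_i known_i` where `known_i` is the group generated by

1. the commutator group of the group generated by all unipotent one-parameter groups in `Gal(P_i)`;
2. the elements `g` of `Gal(P_i)` such that `g - 1` only has entries which go between pieces of a block triangular form of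
   `P_i` with constant periods `ω_j`, `ω_l` (up to factors in `K`) with a transcendental quotient (for example pieces
   `ℚ(-j)` and `ℚ(-l)`, `j ≠ l`, with periods `(2πi)^j`, `(2πi)^l`);
3. the elements `exp N` where `N` belongs to the abelian part of Tate type: modulo brackets `2πi N` is the conjugate by
   `P_i(1/t_i)` of a matrix over `K`.

If the family `M_i` is mixed Tate, with any weights, then `known_i` is the whole group `Gal(P_i)`. Moreover all de
Rham-Betti classes over `K` in all tensor spaces `M^(⊗p) ⊗ (M^∨)^(⊗q)` are invariant under `1 × ∏_i known_i`, and for every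
`T` the Lie algebra of the group `T T⁻¹` is normalised by `1 × ∏_i Gal(P_i)`.

So neither the de Rham-Betti group of `M` nor any torsor over `K` of period relations can be smaller than predicted for a
reason which is visible in the variation, and for mixed Tate families the question of whether the torsor of de Rham-Betti
isomorphisms of `M` is the motivic torsor is reduced to `M_0` (take for `M_0` the limit objects).

Proof. A theorem of helper120 (`Pool.Agent.Y120.R.gx`) gives that, outside of the exceptional set, all relations of degree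
at most `d` over `K` of the period matrix `c` of `M` are satisfied by `g c` for `g ∈ 1 × ∏_i Gal(P_i)`, where `d` depends
only on the rank (this uses polynomials with coefficients in the space generated by the periods of `M_0`). From this finite
list of relations everything is deduced, see `Pool/Agent/Y123/GN`. (Normality) The Lie algebra `L` of `T T⁻¹` is normalised
by `∏ Gal(P_i)`. (Centralisers) Let `s` normalise `L`. Its conjugates under `T T⁻¹` are finite in number modulo `L` as their
derivatives vanish, so by Jordan's theorem there is `J` depending only on the rank such that the operators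
`Ad(h)^J`, `h ∈ T T⁻¹`, on `Norm(L) / L` are simultaneously diagonalisable. If `v` is a common eigenvector then
`Ad(h)^J v ∈ ℂ v + L`, a relation of bounded degree, so it holds for `h = exp(t N)` if all `exp(t N)` are in `Gal`, and as
this is unipotent `v` is fixed: `[N, v] ∈ L`. So `[N, s] ∈ L` for all `s` which normalise `L`, for example for `s = N'`.
(Commutators) If `N' = g N g⁻¹` then `N' - N ∈ L` and the curve `exp(t N') exp(-t N)` has its logarithmic derivative in `L`.
(Weights) The logarithmic derivative `w = (D c) c⁻¹` of the period point along a derivation `D` of `ℂ` over `K` is in `L`, so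
`[N, w] ∈ L`, and on the matrices between the pieces with different `D ω_j / ω_j` the map `ad w` is invertible.
-/

set_option autoImplicit false

open PowerSeries

namespace Pool.Agent.Results.MP_ae0f86_nt.MixedTorsors

/-- an integer polynomial as a power series with rational coefficients -/
noncomputable def toQ (P : Polynomial ℤ) : PowerSeries ℚ := ((P.map (Int.castRingHom ℚ) : Polynomial ℚ) : PowerSeries ℚ)

/-- the power series `P(u^e)` -/
noncomputable def atPow (e : ℕ) (P : Polynomial ℤ) : PowerSeries ℂ :=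
  ((Polynomial.expand ℂ e (P.map (Int.castRingHom ℂ)) : Polynomial ℂ) : PowerSeries ℂ)

/-- the matrices `G_s` over `ℤ[x]` with `T^s y^(s) = G_s y` for all solutions `y` of `T y' = A y` -/
noncomputable def iter {r : ℕ} (T : Polynomial ℤ) (A : Fin r → Fin r → Polynomial ℤ) : ℕ → Fin r → Fin r → Polynomial ℤ
  | 0 => fun i j => if i = j then 1 else 0
  | s + 1 => fun i j => T * Polynomial.derivative (iter T A s i j) + ∑ l, iter T A s i l * A l j -
      (s : Polynomial ℤ) * (Polynomial.derivative T * iter T A s i j)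

/-- The system `T y' = A y` has a fundamental matrix of solutions of the form `u^(-M) ∑_n Φ_n(u) (log u)^n` with
`u^e = x` and convergent power series `Φ_n`: the point `0` is regular or a regular singularity with rational
exponents. -/
def QuasiUnipotent {r : ℕ} (T : Polynomial ℤ) (A : Fin r → Fin r → Polynomial ℤ) : Prop :=
  ∃ (e M : ℕ) (K : ℝ) (Φ : Matrix (Fin r) (Fin r) (Polynomial (PowerSeries ℂ))), 1 ≤ e ∧ Φ.det ≠ 0 ∧
    (∀ i j n m, ‖coeff m ((Φ i j).coeff n)‖ ≤ K ^ (m + 1)) ∧
    ∀ i j n, atPow e T * (X * PowerSeries.derivative ℂ ((Φ i j).coeff n) +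
        ((n : PowerSeries ℂ) + 1) * (Φ i j).coeff (n + 1) - (M : PowerSeries ℂ) * (Φ i j).coeff n) =
      (e : PowerSeries ℂ) * X ^ e * ∑ l, atPow e (A i l) * (Φ l j).coeff n

/-- `h_1, ..., h_r` are G-functions with rational coefficients which solve the differential system `T y' = A y`, with
the conditions of Siegel and Galochkin, and `0` is a regular point or a regular singularity with rational exponents of
the system. -/
structure GFamily {r : ℕ} (T : Polynomial ℤ) (A : Fin r → Fin r → Polynomial ℤ) (h : Fin r → PowerSeries ℚ) : Prop where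
  /-- the denominator is not zero -/
  T_ne : T ≠ 0
  /-- the differential equations -/
  ode : ∀ i, toQ T * PowerSeries.derivative ℚ (h i) = ∑ j, toQ (A i j) * h j
  /-- the coefficients have geometric growth -/
  size : ∃ C : ℝ, ∀ i m, |((coeff m (h i) : ℚ) : ℝ)| ≤ C ^ (m + 1)
  /-- the common denominators of the coefficients have geometric growth -/
  den : ∃ C : ℝ, ∀ m : ℕ, ∃ d : ℕ, 0 < d ∧ (d : ℝ) ≤ C ^ (m + 1) ∧ ∀ i, ∀ j ≤ m, ∃ a : ℤ, (d : ℚ) * coeff j (h i) = a
  /-- Galochkin's condition: the common denominators of the matrices `G_s / s!` have geometric growth -/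
  galochkin : ∃ C : ℝ, ∀ m : ℕ, ∃ d : ℕ, 0 < d ∧ (d : ℝ) ≤ C ^ (m + 1) ∧ ∀ s ≤ m, ∀ i j,
    ∃ H : Polynomial ℤ, (d : Polynomial ℤ) * iter T A s i j = (s.factorial : Polynomial ℤ) * H
  /-- the local exponents at `0` are rational and the singularity is regular -/
  regular : QuasiUnipotent T A

theorem iter_eq {r : ℕ} (T : Polynomial ℤ) (A : Fin r → Fin r → Polynomial ℤ) (s : ℕ) :
    iter T A s = Pool.Agent.Y120.GH.itm T A s := by
  induction s with
  | zero => rfl
  | succ s ih =>
    funext i j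
    rw [iter, Pool.Agent.Y120.GH.itm, ih]

theorem qu_eq {r : ℕ} {T : Polynomial ℤ} {A : Fin r → Fin r → Polynomial ℤ} (h : QuasiUnipotent T A) :
    Pool.Agent.Y120.GH.QU0 T A := by
  obtain ⟨e, M, K, Φ, he, hdet, hc, heq⟩ := h
  have he0 : e ≠ 0 := by omega
  refine ⟨e, he0, M, K, Φ, hc, fun i j n => ?_, hdet⟩
  have h1 := heq i j n
  simp only [atPow] at h1
  rw [Pool.Agent.Y120.GH.expand_poly he0]
  simp only [Pool.Agent.Y120.GH.expand_poly he0]
  exact h1

theorem fam {r : ℕ} {T : Polynomial ℤ} {A : Fin r → Fin r → Polynomial ℤ} {h : Fin r → PowerSeries ℚ}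
    (hG : GFamily T A h) (δ : ℕ) : Pool.Agent.Y120.R.Fam δ h :=
  ⟨hG.size, Pool.Agent.Y120.GH.family_main hG.T_ne hG.ode hG.size hG.den (by
    obtain ⟨C, hC⟩ := hG.galochkin
    refine ⟨C, fun m => ?_⟩
    obtain ⟨d, h1, h2, h3⟩ := hC m
    refine ⟨d, h1, h2, fun s hs i' j' => ?_⟩
    rw [← iter_eq]
    exact h3 s hs i' j') (qu_eq hG.regular) δ⟩

section family
variable {r n : ℕ}

/-- The period matrix at `x = 1 / s`: the entries are the polynomials `P a b` in `log s` and in the `h_l(1 / s)`. -/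
noncomputable def perMat (h : Fin r → PowerSeries ℚ) (P : Fin n → Fin n → MvPolynomial (Option (Fin r)) ℂ) (s : ℝ) :
    Matrix (Fin n) (Fin n) ℂ :=
  Matrix.of fun a b => MvPolynomial.aeval (fun o : Option (Fin r) => o.elim ((Real.log s : ℝ) : ℂ)
    fun l => ((∑' m : ℕ, ((coeff m (h l) : ℚ) : ℝ) * (1 / s) ^ m : ℝ) : ℂ)) (P a b)

/-- the value at `x = 1 / s` and at the matrix `Z` of a polynomial in the entries of a matrix over `ℂ[x]` -/
noncomputable def relAt (R : MvPolynomial (Fin n × Fin n) (Polynomial ℂ)) (s : ℝ) (Z : Matrix (Fin n) (Fin n) ℂ) : ℂ :=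
  MvPolynomial.eval₂ (Polynomial.evalRingHom (1 / (s : ℂ))) (fun v => Z v.1 v.2) R

/-- `g P(x)` satisfies all polynomial relations over `ℂ[x]` which `P(x)` satisfies. -/
def Preserves (h : Fin r → PowerSeries ℚ) (P : Fin n → Fin n → MvPolynomial (Option (Fin r)) ℂ)
    (g : Matrix (Fin n) (Fin n) ℂ) : Prop :=
  ∀ R : MvPolynomial (Fin n × Fin n) (Polynomial ℂ), (∀ᶠ s : ℝ in Filter.atTop, relAt R s (perMat h P s) = 0) →
    ∀ᶠ s : ℝ in Filter.atTop, relAt R s (g * perMat h P s) = 0

/-- The group of the matrices `g` such that `g` and `g⁻¹` preserve the relations. If `P` is a fundamental matrix of a linear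
differential system over `ℂ(x)` this is its differential Galois group. -/
noncomputable def Gal (h : Fin r → PowerSeries ℚ) (P : Fin n → Fin n → MvPolynomial (Option (Fin r)) ℂ) :
    Subgroup (Matrix.GeneralLinearGroup (Fin n) ℂ) where
  carrier := {g | Preserves h P (g : Matrix (Fin n) (Fin n) ℂ) ∧
    Preserves h P ((g⁻¹ : Matrix.GeneralLinearGroup (Fin n) ℂ) : Matrix (Fin n) (Fin n) ℂ)}
  mul_mem' := fun hg hg' => (Pool.Agent.Y123.GN.Gs h P).mul_mem' hg hg'
  one_mem' := (Pool.Agent.Y123.GN.Gs h P).one_mem'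
  inv_mem' := fun hg => (Pool.Agent.Y123.GN.Gs h P).inv_mem' hg

theorem gal_eq (h : Fin r → PowerSeries ℚ) (P : Fin n → Fin n → MvPolynomial (Option (Fin r)) ℂ) :
    Gal h P = Pool.Agent.Y123.GN.Gs h P := rfl

/-- the nilpotent matrices `N` with `exp (t N) ∈ H` for all `t` -/
def nilpotents (H : Subgroup (Matrix.GeneralLinearGroup (Fin n) ℂ)) : Set (Matrix (Fin n) (Fin n) ℂ) :=
  {N | IsNilpotent N ∧ ∀ t : ℂ, ∃ u ∈ H, (u : Matrix (Fin n) (Fin n) ℂ) = IsNilpotent.exp (t • N)}

/-- the subgroup generated by all unipotent one-parameter groups in `H` -/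
def unipotents (H : Subgroup (Matrix.GeneralLinearGroup (Fin n) ℂ)) : Subgroup (Matrix.GeneralLinearGroup (Fin n) ℂ) :=
  Subgroup.closure {u | ∃ N ∈ nilpotents H, ∃ t : ℂ, (u : Matrix (Fin n) (Fin n) ℂ) = IsNilpotent.exp (t • N)}

/-- the space generated by the brackets -/
def brackets (H : Subgroup (Matrix.GeneralLinearGroup (Fin n) ℂ)) : Submodule ℂ (Matrix (Fin n) (Fin n) ℂ) :=
  Submodule.span ℂ {C | ∃ A ∈ nilpotents H, ∃ B ∈ nilpotents H, C = A * B - B * A}

/-- The matrix `P` is block upper triangular with respect to the weights `wt`, and for the weights `j` in `E` the diagonal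
block is `ω_j` times a constant matrix over `K`. -/
structure Graded (K : Subfield ℂ) (P : Fin n → Fin n → MvPolynomial (Option (Fin r)) ℂ) (wt : Fin n → ℤ) (E : Set ℤ)
    (ω : ℤ → ℂ) : Prop where
  /-- block triangular -/
  tri : ∀ a b, wt b < wt a → P a b = 0
  /-- constant periods -/
  diag : ∀ a b, wt b = wt a → wt a ∈ E → ∃ κ ∈ K, P a b = MvPolynomial.C (ω (wt a) * κ)

/-- The weight of `a` is smaller than the weight of `b`, and all weights up to the first and all weights from the second on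
have constant periods, with transcendental quotients. -/
def Between (wt : Fin n → ℤ) (E : Set ℤ) (ω : ℤ → ℂ) (a b : Fin n) : Prop :=
  wt a < wt b ∧ ∀ a' b', wt a' ≤ wt a → wt b ≤ wt b' → wt a' ∈ E ∧ wt b' ∈ E ∧
    Transcendental ℚ (ω (wt a') / ω (wt b'))

/-- the elements `g` of the Galois group such that `g - 1` only has entries between pieces as above -/
def gradedPart (K : Subfield ℂ) (h : Fin r → PowerSeries ℚ) (P : Fin n → Fin n → MvPolynomial (Option (Fin r)) ℂ) :
    Set (Matrix.GeneralLinearGroup (Fin n) ℂ) :=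
  {g | g ∈ Gal h P ∧ ∃ (wt : Fin n → ℤ) (E : Set ℤ) (ω : ℤ → ℂ), Graded K P wt E ω ∧
    ∀ a b, (g : Matrix (Fin n) (Fin n) ℂ) a b ≠ (1 : Matrix (Fin n) (Fin n) ℂ) a b → Between wt E ω a b}

/-- the entries are in `K` -/
def Over (K : Subfield ℂ) (A : Matrix (Fin n) (Fin n) ℂ) : Prop := ∀ a b, A a b ∈ K

/-- the matrices `N` over `K` in the space generated by the `nilpotents` such that `2πi N` is modulo brackets the conjugate
by the period matrix `Z` of a matrix over `K` -/
def tateMatrices (K : Subfield ℂ) (H : Subgroup (Matrix.GeneralLinearGroup (Fin n) ℂ)) (Z : Matrix (Fin n) (Fin n) ℂ) :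
    Set (Matrix (Fin n) (Fin n) ℂ) :=
  {N | N ∈ Submodule.span ℂ (nilpotents H) ∧ Over K N ∧ ∃ X : Matrix (Fin n) (Fin n) ℂ, Over K X ∧
    Z * X * Z⁻¹ - (2 * Real.pi * Complex.I : ℂ) • N ∈ brackets H}

/-- The exponentials of the `nilpotents` which are sums of brackets and of combinations of the matrices above, if the space of
brackets is defined over `K`. -/
def tatePart (K : Subfield ℂ) (H : Subgroup (Matrix.GeneralLinearGroup (Fin n) ℂ)) (Z : Matrix (Fin n) (Fin n) ℂ) :
    Set (Matrix.GeneralLinearGroup (Fin n) ℂ) :=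
  {g | brackets H ≤ Submodule.span ℂ {y | y ∈ brackets H ∧ Over K y} ∧
    ∃ N ∈ nilpotents H, N ∈ brackets H ⊔ Submodule.span ℂ (tateMatrices K H Z) ∧
      (g : Matrix (Fin n) (Fin n) ℂ) = IsNilpotent.exp N}

/-- The group generated by the three kinds of elements, for the fibre with the period matrix `Z`. -/
def known (K : Subfield ℂ) (h : Fin r → PowerSeries ℚ) (P : Fin n → Fin n → MvPolynomial (Option (Fin r)) ℂ)
    (Z : Matrix (Fin n) (Fin n) ℂ) : Subgroup (Matrix.GeneralLinearGroup (Fin n) ℂ) :=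
  Subgroup.closure (((⁅unipotents (Gal h P), unipotents (Gal h P)⁆ : Subgroup (Matrix.GeneralLinearGroup (Fin n) ℂ)) ∪
    gradedPart K h P) ∪ tatePart K (Gal h P) Z)

/-- Mixed Tate families: block triangular, with the diagonal blocks `(2πi)^j` times constant matrices over `K`. -/
def MixedTate (K : Subfield ℂ) (P : Fin n → Fin n → MvPolynomial (Option (Fin r)) ℂ) : Prop :=
  ∃ wt : Fin n → ℤ, Graded K P wt Set.univ fun j => (2 * Real.pi * Complex.I : ℂ) ^ j

theorem known_eq (K : Subfield ℂ) (h : Fin r → PowerSeries ℚ) (P : Fin n → Fin n → MvPolynomial (Option (Fin r)) ℂ)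
    (Z : Matrix (Fin n) (Fin n) ℂ) : known K h P Z = Pool.Agent.Y123.GN.Kn K h P Z := by
  have h1 : gradedPart K h P = Pool.Agent.Y123.GN.Gd K h P := by
    ext g
    constructor
    · rintro ⟨hg, wt, E, ω, hgr, hb⟩
      exact ⟨hg, wt, E, ω, ⟨hgr.tri, hgr.diag⟩, hb⟩
    · rintro ⟨hg, wt, E, ω, hgr, hb⟩
      exact ⟨hg, wt, E, ω, ⟨hgr.tri, hgr.diag⟩, hb⟩
  unfold known
  rw [h1]
  rfl

end family

/-- `T` is (the set of complex points of) a `K`-subtorsor of `GL_B = Iso (M_dR, M_B)`: it is closed under `x y⁻¹ z`, and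
it is defined in `GL_B` by polynomials with coefficients in `K`. -/
def IsSubtorsor (K : Subfield ℂ) {B : Type} [Fintype B] [DecidableEq B] (T : Set (Matrix B B ℂ)) : Prop :=
  (∀ x ∈ T, ∀ y ∈ T, ∀ z ∈ T, x * y⁻¹ * z ∈ T) ∧ ∃ I : Set (MvPolynomial (B × B) K), ∀ x : Matrix B B ℂ, x ∈ T ↔
    IsUnit x ∧ ∀ p ∈ I, MvPolynomial.eval (fun b => x b.1 b.2) (MvPolynomial.map (algebraMap K ℂ) p) = 0

/-- The Lie algebra of the group `T T⁻¹`: the matrices `w` such that `w x` is a tangent vector of `T` at `x` for all `x` in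
`T`. -/
def lie {B : Type} [Fintype B] [DecidableEq B] (T : Set (Matrix B B ℂ)) : Set (Matrix B B ℂ) :=
  {w | ∀ P : MvPolynomial (B × B) ℂ, (∀ x ∈ T, MvPolynomial.eval (fun b => x b.1 b.2) P = 0) → ∀ x ∈ T,
    ∑ b : B × B, MvPolynomial.eval (fun b => x b.1 b.2) (MvPolynomial.pderiv b P) * (w * x) b.1 b.2 = 0}

/-- The action of an invertible matrix on the mixed tensors of type `(p, q)`: it acts by `x` on the first `p` indices and
by the contragredient on the others. -/
noncomputable def tens {B : Type} [Fintype B] [DecidableEq B] (p q : ℕ) (x : Matrix B B ℂ) :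
    Matrix ((Fin p → B) × (Fin q → B)) ((Fin p → B) × (Fin q → B)) ℂ :=
  Matrix.of fun I J => (∏ s, x (I.1 s) (J.1 s)) * ∏ t, x⁻¹ (J.2 t) (I.2 t)

section
variable {k r : ℕ} {n : Fin k → ℕ} {ρ : Fin k → ℕ}

/-- the block matrix `x ⊕ X_1 ⊕ … ⊕ X_k` -/
noncomputable def total (x : Matrix (Fin r) (Fin r) ℂ) (X : ∀ i, Matrix (Fin (n i)) (Fin (n i)) ℂ) :
    Matrix (Fin r ⊕ Σ i, Fin (n i)) (Fin r ⊕ Σ i, Fin (n i)) ℂ :=
  Matrix.fromBlocks x 0 0 (Matrix.blockDiagonal' X)

/-- The conclusion for the tuple `t`; `Z i` is the period matrix of the fibre of the `i`-th family at `x = 1 / t_i`. -/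
def Full (K : Subfield ℂ) (C₀ : Matrix (Fin r) (Fin r) ℂ) (h : ∀ i, Fin (ρ i) → PowerSeries ℚ)
    (P : ∀ i, Fin (n i) → Fin (n i) → MvPolynomial (Option (Fin (ρ i))) ℂ)
    (Z : ∀ i, Matrix (Fin (n i)) (Fin (n i)) ℂ) : Prop :=
  -- 1: all subtorsors
  (∀ g : ∀ i, Matrix.GeneralLinearGroup (Fin (n i)) ℂ, (∀ i, g i ∈ known K (h i) (P i) (Z i)) →
    ∀ T : Set (Matrix (Fin r ⊕ Σ i, Fin (n i)) (Fin r ⊕ Σ i, Fin (n i)) ℂ), IsSubtorsor K T → total C₀ Z ∈ T →
      ∀ x ∈ T, total 1 (fun i => (g i : Matrix (Fin (n i)) (Fin (n i)) ℂ)) * x ∈ T) ∧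
  -- 2: mixed Tate families
  (∀ i, MixedTate K (P i) → Gal (h i) (P i) ≤ known K (h i) (P i) (Z i)) ∧
  -- 3: classes in all tensor spaces
  (∀ g : ∀ i, Matrix.GeneralLinearGroup (Fin (n i)) ℂ, (∀ i, g i ∈ known K (h i) (P i) (Z i)) →
    IsUnit C₀ → ∀ (p q : ℕ) (a b : (Fin p → Fin r ⊕ Σ i, Fin (n i)) × (Fin q → Fin r ⊕ Σ i, Fin (n i)) → K),
      Matrix.mulVec (tens p q (total C₀ Z)) (fun J => (a J : ℂ)) = (fun I => (b I : ℂ)) →
      Matrix.mulVec (tens p q (total 1 fun i => (g i : Matrix (Fin (n i)) (Fin (n i)) ℂ))) (fun I => (b I : ℂ)) =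
        fun I => (b I : ℂ)) ∧
  -- 4: normality
  ∀ g : ∀ i, Matrix.GeneralLinearGroup (Fin (n i)) ℂ, (∀ i, g i ∈ Gal (h i) (P i)) →
    ∀ T : Set (Matrix (Fin r ⊕ Σ i, Fin (n i)) (Fin r ⊕ Σ i, Fin (n i)) ℂ), IsSubtorsor K T → total C₀ Z ∈ T →
      ∀ w ∈ lie T, total 1 (fun i => (g i : Matrix (Fin (n i)) (Fin (n i)) ℂ)) * w *
        (total 1 fun i => (g i : Matrix (Fin (n i)) (Fin (n i)) ℂ))⁻¹ ∈ lie T

end

/-- **The theorem.** -/
theorem result (k D e r : ℕ) (ρ n : Fin k → ℕ) (T : Fin k → Polynomial ℤ)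
    (A : ∀ i, Fin (ρ i) → Fin (ρ i) → Polynomial ℤ) (h : ∀ i, Fin (ρ i) → PowerSeries ℚ)
    (hG : ∀ i, GFamily (T i) (A i) (h i)) :
    ∃ c C : ℝ, 0 < c ∧ 0 ≤ C ∧ ∀ P : ∀ i, Fin (n i) → Fin (n i) → MvPolynomial (Option (Fin (ρ i))) ℂ,
    (∀ i a b, (P i a b).totalDegree ≤ e) → ∀ K : Subfield ℂ, FiniteDimensional ℚ K → Module.finrank ℚ K ≤ D →
    ∀ C₀ : Matrix (Fin r) (Fin r) ℂ, ∀ (x : Fin k → ℕ) (N : ℕ), 1 ≤ N →
    (({t : Fin k → ℕ | (∀ i, x i < t i ∧ t i ≤ x i + N) ∧ (∀ i, IsUnit (perMat (h i) (P i) (t i : ℝ))) ∧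
      ¬ Full K C₀ h P fun i => perMat (h i) (P i) (t i : ℝ)}.ncard : ℕ) : ℝ) ≤
      C * (N : ℝ) ^ (k - 1) * ∑ i, (1 + N / ((x i : ℝ) + N) ^ c) := by
  classical
  obtain ⟨c, C, hc, hC, hmain⟩ := Pool.Agent.Y123.GN.mixed_main k D e r ρ n h fun i δ => fam (hG i) δ
  refine ⟨c, C, hc, hC, ?_⟩
  intro P hP K hKf hK C₀ x N hN
  set E := {t : Fin k → ℕ | (∀ i, x i < t i ∧ t i ≤ x i + N) ∧ (∀ i, IsUnit (perMat (h i) (P i) (t i : ℝ))) ∧
      ¬ Full K C₀ h P fun i => perMat (h i) (P i) (t i : ℝ)} with hE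
  have hfin : E.Finite := by
    refine (Set.finite_Iic (fun i : Fin k => x i + N)).subset ?_
    intro t ht i
    exact (ht.1 i).2
  rw [Set.ncard_eq_toFinset_card E hfin]
  refine hmain P hP K hKf hK C₀ x N hN _ fun t ht => ?_
  have ht' : t ∈ E := hfin.mem_toFinset.1 ht
  obtain ⟨hbox, hunit, hnot⟩ := ht'
  refine ⟨hbox, hunit, fun hfull => hnot ?_⟩
  obtain ⟨h1, h2, h3⟩ := hfull
  have hst : ∀ g : ∀ i, Matrix.GeneralLinearGroup (Fin (n i)) ℂ,
      (∀ i, g i ∈ known K (h i) (P i) (perMat (h i) (P i) (t i : ℝ))) →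
      ∀ T : Set (Matrix (Fin r ⊕ Σ i, Fin (n i)) (Fin r ⊕ Σ i, Fin (n i)) ℂ), Pool.Agent.TH127.PT.IsSubtorsor K T →
      total C₀ (fun i => perMat (h i) (P i) (t i : ℝ)) ∈ T →
      ∀ x ∈ T, total 1 (fun i => (g i : Matrix (Fin (n i)) (Fin (n i)) ℂ)) * x ∈ T := by
    intro g hg T hT hcT
    refine h1 T hT hcT g fun i => ?_
    have h4 := hg i
    rw [known_eq] at h4
    exact h4
  refine ⟨fun g hg T hT => hst g hg T (Pool.Agent.Y123.ST.subT_iff.1 hT), ?_, ?_, ?_⟩
  · rintro i ⟨wt, hwt⟩
    rw [known_eq]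
    exact h2 i ⟨wt, ⟨hwt.tri, hwt.diag⟩⟩
  · intro g hg hC₀ p q a b hab
    have hT := Pool.Agent.Y123.GN.class_sub (K := K) (M := Fin r ⊕ Σ i, Fin (n i)) (p := p) (q := q)
      (fun J => (a J : ℂ)) (fun I => (b I : ℂ)) (fun J => (a J).2) (fun I => (b I).2)
    have hu : IsUnit (total C₀ fun i => perMat (h i) (P i) (t i : ℝ)) :=
      Pool.Agent.Y123.GN.EG_isUnit hC₀ hunit
    have h4 := hst g hg _ hT ⟨hu, hab⟩ _ ⟨hu, hab⟩
    have h5 := h4.2
    rw [Pool.Agent.Y123.GN.tn_mul, ← Matrix.mulVec_mulVec] at h5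
    have h6 : Matrix.mulVec (Pool.Agent.Y123.GN.tn p q (total C₀ fun i => perMat (h i) (P i) (t i : ℝ)))
      (fun J => (a J : ℂ)) = fun I => (b I : ℂ) := hab
    rw [h6] at h5
    exact h5
  · intro g hg T hT hcT w hw
    exact h3 T (Pool.Agent.Y123.ST.subT_iff.1 hT) hcT g hg w hw

end Pool.Agent.Results.MP_ae0f86_nt.MixedTorsors
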