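import Pool.Agent.Y776.Fam.MainT
import Pool.Agent.TH813.EKPer

/-!
# The period conjecture for families of 1-motives and iterated integrals, relative to an arbitrary motive

Let `E_z : y² = 4 x³ - g₂(z) x - g₃(z)` be a family of elliptic curves whose invariants are algebraic functions of `z`
and whose `j` is not constant, and let `P_1, …, P_r` be algebraic sections which are independent modulo torsion. Let
further `t_1, …, t_s` be a tower of integrals: the derivative of `t_k` is algebraic over `ℂ(z, t_1, …, t_(k-1))`, and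
the functions `z, t_1, …, t_s` are algebraically independent. Examples are integrals of the first, second and third kind
on any curves which do not depend on `z`, between points depending on `z` (periods of 1-motives `[ℤ^a → J]` with `J` the
generalized Jacobian of a curve of any genus), logarithms of algebraic functions, and all iterated integrals of
algebraic differentials, for instance multiple polylogarithms (periods of mixed Tate motives).

In these cases `ω₁, ω₂, η₁` (periods and quasi-periods; `η₂` is determined by Legendre's relation), `u_i` (elliptic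
logarithms of `P_i`), `ζ(u_i)` (integrals of the second kind), the logarithms of `σ(∑ N_i u_i)`, `N_i ∈ ℤ` (integrals of
the third kind) and `t_k` are built from periods of Nori motives `M_z` over the field generated by `z`: sums of
1-motives `[ℤ^a → G]`, with `G` an extension of a power of `E_z` by a torus, and of the motives of the tower. The
conjecture for the sum of a motive `M` and of motives `M_{1,z_1}, …, M_{n,z_n}` of `n` such families says that in
general the `n (3 + 2 r + s + q)` numbers below are algebraically independent over the field of the periods of `M`. The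
numbers `ξ_1, …, ξ_g` below are arbitrary, for instance the monomials up to a given degree in the periods of `M`.
-/

set_option autoImplicit false

open NumberField
open scoped PeriodPair

namespace Pool.Agent.Results.MP_ae0f86_nt.OneMotivesAndTowers

/-- The Weierstrass zeta function `ζ(z) = ∑ (1/(z-l) + 1/l + z/l²)`, the sum over the lattice (the summand of `l = 0` is
`1/z`, since `1/0 = 0` in Lean). -/
noncomputable def ζ (L : PeriodPair) (z : ℂ) : ℂ :=
  ∑' l : L.lattice, (1 / (z - l) + 1 / l + z / l ^ 2)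

/-- The Weierstrass sigma function `σ(z) = z ∏ (1 - z/l) exp(z/l + z²/(2 l²))`, the product over the lattice (the factor
of `l = 0` is `1`, since `z/0 = 0` in Lean). -/
noncomputable def σ (L : PeriodPair) (z : ℂ) : ℂ :=
  z * ∏' l : L.lattice, ((1 - z / l) * Complex.exp (z / l + (z / l) ^ 2 / 2))

/-- The function `f` is algebraic over `ℂ(z)` on the set `U`. -/
def Algebraic (U : Set ℂ) (f : ℂ → ℂ) : Prop :=
  ∃ P : MvPolynomial (Fin 2) ℂ, P ≠ 0 ∧ ∀ z ∈ U, MvPolynomial.eval ![z, f z] P = 0

/-- A family of elliptic curves `ℂ / Λ_z` with points `P_i = (℘(u_i), ℘'(u_i))`, a tower of functions `t_k`, and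
branches `S_k` of `log σ(∑ N_ki u_i)`. -/
structure Family (U : Set ℂ) (Λ : ℂ → PeriodPair) {r s q : ℕ} (u : Fin r → ℂ → ℂ) (t : Fin s → ℂ → ℂ)
    (N : Fin q → Fin r → ℤ) (S : Fin q → ℂ → ℂ) : Prop where
  isOpen : IsOpen U
  isPreconnected : IsPreconnected U
  /-- the lattice depends analytically on `z` -/
  analytic₁ : AnalyticOnNhd ℂ (fun z => (Λ z).ω₁) U
  analytic₂ : AnalyticOnNhd ℂ (fun z => (Λ z).ω₂) U
  /-- the invariants are algebraic functions -/
  algebraic₂ : Algebraic U (fun z => (Λ z).g₂)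
  algebraic₃ : Algebraic U (fun z => (Λ z).g₃)
  /-- `j` is not constant: `g₂³` and `g₃²` are linearly independent -/
  nonconstant : ∀ a b : ℂ, (∀ z ∈ U, a * (Λ z).g₂ ^ 3 = b * (Λ z).g₃ ^ 2) → a = 0 ∧ b = 0
  /-- the points are given by analytic functions `u_i`; they are not zero and their coordinates are algebraic -/
  point : ∀ i, AnalyticOnNhd ℂ (u i) U
  point_ne : ∀ i, ∀ z ∈ U, u i z ∉ (Λ z).lattice
  point_alg : ∀ i, Algebraic U (fun z => ℘[Λ z] (u i z))
  /-- the points are independent modulo torsion -/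
  point_ind : ∀ n : Fin r → ℤ, (∀ z ∈ U, ∑ i, (n i : ℂ) * u i z ∈ (Λ z).lattice) → n = 0
  /-- the derivative of the analytic function `t_k` is algebraic over `ℂ(z, t_1, …, t_(k-1))`: there is a nonzero
  polynomial relation between `z`, the derivative, and `t_1, …, t_(k-1)` -/
  tower : ∀ k, AnalyticOnNhd ℂ (t k) U
  tower_deriv : ∀ k : Fin s, ∃ P : MvPolynomial (Fin 2 ⊕ Fin k) ℂ, P ≠ 0 ∧ ∀ z ∈ U,
    MvPolynomial.eval (Sum.elim ![z, deriv (t k) z] (fun j => t (Fin.castLE k.isLt.le j) z)) P = 0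
  /-- the functions `z, t_1, …, t_s` are algebraically independent over `ℂ` -/
  tower_ind : ∀ P : MvPolynomial (Option (Fin s)) ℂ,
    (∀ z ∈ U, MvPolynomial.eval (fun o : Option (Fin s) => o.elim z (fun k => t k z)) P = 0) → P = 0
  /-- `S_k` is a logarithm of `σ(∑ N_ki u_i)` -/
  sigma : ∀ k, AnalyticOnNhd ℂ (S k) U
  sigma_exp : ∀ k, ∀ z ∈ U, Complex.exp (S k z) = σ (Λ z) (∑ i, (N k i : ℂ) * u i z)
  /-- the quadratic forms `(∑ N_ki X_i)²` are linearly independent -/
  sigma_ind : ∀ c : Fin q → ℤ, (∀ i j, ∑ k, c k * (N k i * N k j) = 0) → c = 0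

/-- The numbers `ω₁, ω₂, η₁ = 2 ζ(ω₁ / 2), u_i, ζ(u_i), t_k, S_k` at the point `z`. -/
noncomputable def periods (Λ : ℂ → PeriodPair) {r s q : ℕ} (u : Fin r → ℂ → ℂ) (t : Fin s → ℂ → ℂ)
    (S : Fin q → ℂ → ℂ) (z : ℂ) : Fin 3 ⊕ (Fin r ⊕ (Fin r ⊕ (Fin s ⊕ Fin q))) → ℂ :=
  Sum.elim ![(Λ z).ω₁, (Λ z).ω₂, 2 * ζ (Λ z) ((Λ z).ω₁ / 2)] (Sum.elim (fun i => u i z)
    (Sum.elim (fun i => ζ (Λ z) (u i z)) (Sum.elim (fun k => t k z) (fun k => S k z))))

/-- The elements of the number field `F` with image in `K` which are quotients of two integers of `F` all of whose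
conjugates have absolute value at most `T`. -/
def Points (F : Type) [Field F] [NumberField F] (ι : F →+* ℂ) (K : Set ℂ) (T : ℝ) : Set F :=
  {x | ι x ∈ K ∧ ∃ a b : 𝓞 F, b ≠ 0 ∧ (∀ φ : F →+* ℂ, ‖φ a‖ ≤ T ∧ ‖φ b‖ ≤ T) ∧ x = a / b}

/-- The `n`-tuples `x` of points of `F` for which there is a polynomial `P` of degree at most `d` in each variable, with
coefficients of the form `∑ ξ_i ι(c_i)`, where the `c_i` are integers of `F` all of whose conjugates have absolute value
at most `T ^ A`, such that the value of `P` at the numbers `v j (ι (x j)) i` is at most `T ^ (-B)` times the absolute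
value of some nonzero coefficient of `P`. -/
def Exceptional (n d : ℕ) {g : ℕ} {J : Type} (v : Fin n → ℂ → J → ℂ) (F : Type) [Field F] [NumberField F]
    (ι : F →+* ℂ) (ξ : Fin g → ℂ) (K : Set ℂ) (A B T : ℝ) : Set (Fin n → F) :=
  {x | (∀ j, x j ∈ Points F ι K T) ∧ ∃ P : MvPolynomial (Fin n × J) ℂ, (∀ y, P.degreeOf y ≤ d) ∧
    (∀ s, ∃ c : Fin g → 𝓞 F, (∀ i (φ : F →+* ℂ), ‖φ (c i)‖ ≤ T ^ A) ∧ P.coeff s = ∑ i, ξ i * ι (c i)) ∧
    ∃ s₀, P.coeff s₀ ≠ 0 ∧
      ‖MvPolynomial.aeval (fun y : Fin n × J => v y.1 (ι (x y.1)) y.2) P‖ ≤ T ^ (-B) * ‖P.coeff s₀‖}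

/-- For `n` families over `U_1, …, U_n` (equal or different) and a compact set `K` contained in all `U_j`, and all `m`,
`g`, `d`, `A` and `ε > 0` there are `B`, `C`, `T₀` such that for every number field `F` of degree at most `m`, every
embedding of `F` in `ℂ`, all complex numbers `ξ_1, …, ξ_g` and all `T ≥ T₀` the number of exceptional `n`-tuples is at
most `C T^ε N^(n - 1)`, where `N` is the number of points. -/
theorem result {n r s q : ℕ} (U : Fin n → Set ℂ) (Λ : Fin n → ℂ → PeriodPair) (u : Fin n → Fin r → ℂ → ℂ)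
    (t : Fin n → Fin s → ℂ → ℂ) (N : Fin n → Fin q → Fin r → ℤ) (S : Fin n → Fin q → ℂ → ℂ)
    (hU : ∀ j, Family (U j) (Λ j) (u j) (t j) (N j) (S j)) (K : Set ℂ) (hK : IsCompact K) (hKU : ∀ j, K ⊆ U j)
    (m g d : ℕ) (A ε : ℝ) (hε : 0 < ε) :
    ∃ B C T₀ : ℝ, ∀ (F : Type) [Field F] [NumberField F], Module.finrank ℚ F ≤ m → ∀ (ι : F →+* ℂ) (ξ : Fin g → ℂ)
      (T : ℝ), T₀ ≤ T →
      (Exceptional n d (fun j => periods (Λ j) (u j) (t j) (S j)) F ι ξ K A B T).Finite ∧
        ((Exceptional n d (fun j => periods (Λ j) (u j) (t j) (S j)) F ι ξ K A B T).ncard : ℝ) ≤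
          C * T ^ ε * ((Points F ι K T).ncard : ℝ) ^ (n - 1) := by
  classical
  have hF : ∀ j, Y776.Fam.FmT (U j) (Λ j) (u j) (t j) (N j) (S j) := fun j =>
    ⟨{ isOpen := (hU j).isOpen, conn := (hU j).isPreconnected, an₁ := (hU j).analytic₁, an₂ := (hU j).analytic₂
       ni := (hU j).nonconstant, ag2 := (hU j).algebraic₂, ag3 := (hU j).algebraic₃, ua := (hU j).point
       un := (hU j).point_ne, uw := (hU j).point_alg, ui := (hU j).point_ind, la := fun k => k.elim0
       le := fun k => k.elim0, li := fun _ _ _ => Subsingleton.elim _ _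
       Sa := (hU j).sigma, Se := (hU j).sigma_exp, Ni := (hU j).sigma_ind },
      (hU j).tower, (hU j).tower_deriv, (hU j).tower_ind⟩
  obtain ⟨B, C, T₀, hC, hT₀, H⟩ := Y776.Fam.fam_NFT (η := Fin g) m n d hF hK hKU A ε hε
  refine ⟨B, C, T₀, fun F _ _ hm ι ξ T hT => ?_⟩
  have hv : ∀ j z i, Y776.Fam.yfam (Λ j) (u j) (t j) (S j) i z = periods (Λ j) (u j) (t j) (S j) z i := by
    intro j z i
    rcases i with a | i | i | k | k
    · fin_cases a
      · rfl
      · rfl
      · exact Pool.Agent.TH813.Ell.eta_half (Λ j z).ω₁_mem_lattice (Pool.Agent.TH813.Ell.half₁ (Λ j z))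
    all_goals rfl
  have hT0 : 0 ≤ T := by linarith
  have hP : Points F ι K T = {x : F | Y120.HtLe F T x ∧ ι x ∈ K} := by
    ext x
    constructor
    · rintro ⟨h1, a, b, hb, hab, hx⟩
      exact ⟨⟨a, b, hb, Y120.house_le F hT0 fun φ => (hab φ).1, Y120.house_le F hT0 fun φ => (hab φ).2, hx⟩, h1⟩
    · rintro ⟨⟨a, b, hb, ha, hb', hx⟩, h1⟩
      exact ⟨h1, a, b, hb, fun φ => ⟨(Y120.house_ge F _ φ).trans ha, (Y120.house_ge F _ φ).trans hb'⟩, hx⟩
  have key := H F hm ι ξ T hT (Exceptional n d (fun j => periods (Λ j) (u j) (t j) (S j)) F ι ξ K A B T) (by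
    rintro x ⟨hx, P, hPd, hPc, s₀, hs₀, hs⟩
    refine ⟨fun j => ?_, P, hPd, hPc, s₀, hs₀, ?_⟩
    · have h1 := hx j
      rw [hP] at h1
      exact h1
    · simp only [hv]
      exact hs)
  rw [hP]
  exact key

end Pool.Agent.Results.MP_ae0f86_nt.OneMotivesAndTowers
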